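import Mathlib
import Pool.Agent.MP_c38bc8_al.Wrap

namespace Pool.Agent.Results.MP_c38bc8_al.Realization

open Pool.Agent.MPc38bc8.Super

universe u v

/-- Every nonempty closed conical subset of the odd nullcone of a finite-dimensional Lie
superalgebra over an algebraically closed field of characteristic `p ≥ 3` is the rank variety of
a finite-dimensional supermodule. -/
theorem result (k : Type u) [Field k] [IsAlgClosed k] (p : ℕ) [CharP k p] (hp : 3 ≤ p)
    (g : Type v) [AddCommGroup g] [Module k g] [FiniteDimensional k g]
    (L : LieSuperalgebra k g) (W : Set g) (hW : IsClosedConical L W) :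
    ∃ (M : Type u) (_ : AddCommGroup M) (_ : Module k M) (ρ : Supermodule L M),
      FiniteDimensional k M ∧ rankVariety ρ = W :=
  realization k p hp g L W hW

end Pool.Agent.Results.MP_c38bc8_al.Realization
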